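import Mathlib

set_option autoImplicit false

open Set Filter Topology
open scoped RealInnerProductSpace Gradient

namespace Pool.Agent.Results.MP_5c9c6a_an.TwoMinimaOneComponent

/-- Euclidean space of dimension `n`. -/
abbrev E (n : ℕ) := EuclideanSpace ℝ (Fin n)

/-- The critical set `C(f)`. -/
def crit {n : ℕ} (f : E n → ℝ) : Set (E n) := {x | ∇ f x = 0}

/-- The set of points where the Hessian form `D²f(x)(v,v)` is positive definite. -/
def hessPos {n : ℕ} (f : E n → ℝ) : Set (E n) :=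
  {x | ∀ v : E n, v ≠ 0 → 0 < fderiv ℝ (fderiv ℝ f) x v v}

/-- The truncation `T_q(f) = max{q, f}`. -/
noncomputable def trunc {n : ℕ} (f : E n → ℝ) (q : ℝ) : E n → ℝ := fun x => max q (f x)

/-- The levels `q ≥ inf f` such that `T_r(f)` is convex for every `r ≥ q`. -/
def goodLevels {n : ℕ} (f : E n → ℝ) : Set ℝ :=
  {q | (⨅ x, ((f x : ℝ) : EReal)) ≤ (q : EReal) ∧ ∀ r, q ≤ r → ConvexOn ℝ univ (trunc f r)}

/-- The smallest convexity level. -/
noncomputable def scl {n : ℕ} (f : E n → ℝ) : ℝ := sInf (goodLevels f)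

/-- Morse: the Hessian form is nondegenerate at every critical point. -/
def IsMorse {n : ℕ} (f : E n → ℝ) : Prop :=
  ∀ x ∈ crit f, ∀ v : E n, (∀ w : E n, fderiv ℝ (fderiv ℝ f) x v w = 0) → v = 0

/-- The standing hypotheses (H). -/
def StandingH {n : ℕ} (f : E n → ℝ) : Prop :=
  ContDiff ℝ 2 f ∧ ¬ ConvexOn ℝ univ f ∧ (goodLevels f).Nonempty ∧ IsMorse f ∧
  Bornology.IsBounded (crit f) ∧ Bornology.IsBounded (hessPos f)ᶜ ∧
  scl f ∈ range f ∧ (∀ x, f x = scl f → ∇ f x ≠ 0) ∧ {x | scl f < f x} ⊆ hessPos f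

/-- The set `R(f)`. -/
def RR {n : ℕ} (f : E n → ℝ) : Set (E n) := hessPos f \ {x | scl f < f x}

/-! ### The example `f(x,y) = (x²+y²)² - 2x² + y` -/

noncomputable def ff (p : E 2) : ℝ := (p 0 ^ 2 + p 1 ^ 2) ^ 2 - 2 * p 0 ^ 2 + p 1

noncomputable def pt (u v : ℝ) : E 2 := WithLp.toLp 2 ![u, v]

@[simp] lemma pt0 (u v : ℝ) : pt u v 0 = u := rfl
@[simp] lemma pt1 (u v : ℝ) : pt u v 1 = v := rfl

noncomputable abbrev P0 : E 2 →L[ℝ] ℝ := EuclideanSpace.proj (𝕜 := ℝ) (0 : Fin 2)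
noncomputable abbrev P1 : E 2 →L[ℝ] ℝ := EuclideanSpace.proj (𝕜 := ℝ) (1 : Fin 2)

noncomputable def AA (p : E 2) : ℝ := 4 * p 0 * (p 0 ^ 2 + p 1 ^ 2) - 4 * p 0
noncomputable def BB (p : E 2) : ℝ := 4 * p 1 * (p 0 ^ 2 + p 1 ^ 2) + 1

lemma hasP0 (p : E 2) : HasFDerivAt (fun z : E 2 => z 0) P0 p := P0.hasFDerivAt
lemma hasP1 (p : E 2) : HasFDerivAt (fun z : E 2 => z 1) P1 p := P1.hasFDerivAt

lemma deriv_ff (p : E 2) : HasFDerivAt ff (AA p • P0 + BB p • P1) p := by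
  have h0 := hasP0 p
  have h1 := hasP1 p
  have h := (((((h0.pow 2).add (h1.pow 2)).pow 2).sub ((h0.pow 2).const_mul 2)).add h1)
  refine h.congr_fderiv ?_
  ext v
  simp [AA, BB]
  ring

lemma deriv_AA (p : E 2) : HasFDerivAt AA
    ((12 * p 0 ^ 2 + 4 * p 1 ^ 2 - 4) • P0 + (8 * p 0 * p 1) • P1) p := by
  have h0 := hasP0 p
  have h1 := hasP1 p
  have h := ((h0.const_mul 4).mul ((h0.pow 2).add (h1.pow 2))).sub (h0.const_mul 4)
  refine h.congr_fderiv ?_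
  ext v
  simp
  ring

lemma deriv_BB (p : E 2) : HasFDerivAt BB
    ((8 * p 0 * p 1) • P0 + (4 * p 0 ^ 2 + 12 * p 1 ^ 2) • P1) p := by
  have h0 := hasP0 p
  have h1 := hasP1 p
  have h := ((h1.const_mul 4).mul ((h0.pow 2).add (h1.pow 2))).add_const 1
  refine h.congr_fderiv ?_
  ext v
  simp
  ring

lemma fderiv_ff : fderiv ℝ ff = fun p => AA p • P0 + BB p • P1 := by
  funext p; exact (deriv_ff p).fderiv

lemma hess_ff (p v w : E 2) : fderiv ℝ (fderiv ℝ ff) p v w =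
    ((12 * p 0 ^ 2 + 4 * p 1 ^ 2 - 4) * v 0 + (8 * p 0 * p 1) * v 1) * w 0 +
    ((8 * p 0 * p 1) * v 0 + (4 * p 0 ^ 2 + 12 * p 1 ^ 2) * v 1) * w 1 := by
  rw [fderiv_ff]
  have h : HasFDerivAt (fun p : E 2 => AA p • P0 + BB p • P1) _ p :=
    ((deriv_AA p).smul_const P0).add ((deriv_BB p).smul_const P1)
  rw [h.fderiv]
  simp

lemma grad_ff (p : E 2) : ∇ ff p = pt (AA p) (BB p) := by
  have : HasGradientAt ff (pt (AA p) (BB p)) p := by
    rw [hasGradientAt_iff_hasFDerivAt]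
    refine (deriv_ff p).congr_fderiv ?_
    ext v
    rw [InnerProductSpace.toDual_apply_apply, PiLp.inner_apply, Fin.sum_univ_two]
    simp [mul_comm]
  exact this.gradient

lemma grad_zero_iff (p : E 2) : ∇ ff p = 0 ↔ AA p = 0 ∧ BB p = 0 := by
  rw [grad_ff]
  constructor
  · intro h
    exact ⟨congrArg (fun z : E 2 => z 0) h, congrArg (fun z : E 2 => z 1) h⟩
  · rintro ⟨h1, h2⟩
    ext i
    fin_cases i
    · exact h1
    · exact h2

lemma mem_hessPos (p : E 2) :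
    p ∈ hessPos ff ↔ p 0 ^ 2 + 3 * p 1 ^ 2 < 3 * (p 0 ^ 2 + p 1 ^ 2) ^ 2 := by
  constructor
  · intro h
    by_contra hcon
    push Not at hcon
    -- a bad direction
    by_cases hz : 4 * p 0 ^ 2 + 12 * p 1 ^ 2 = 0
    · have h0 : p 0 = 0 := by nlinarith [sq_nonneg (p 0), sq_nonneg (p 1)]
      have h1 : p 1 = 0 := by nlinarith [sq_nonneg (p 0), sq_nonneg (p 1)]
      have hv : pt 1 0 ≠ 0 := fun hh => by
        have := congrArg (fun z : E 2 => z 0) hh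
        simp at this
      have := h _ hv
      rw [hess_ff] at this
      simp [h0, h1] at this
      linarith
    · have hpos : 0 < 4 * p 0 ^ 2 + 12 * p 1 ^ 2 :=
        lt_of_le_of_ne (by positivity) (Ne.symm hz)
      have hv : pt (4 * p 0 ^ 2 + 12 * p 1 ^ 2) (-(8 * p 0 * p 1)) ≠ 0 := fun hh => by
        have := congrArg (fun z : E 2 => z 0) hh
        exact hz this
      have := h _ hv
      rw [hess_ff] at this
      simp only [pt0, pt1] at this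
      have e : ((12 * p 0 ^ 2 + 4 * p 1 ^ 2 - 4) * (4 * p 0 ^ 2 + 12 * p 1 ^ 2) +
          (8 * p 0 * p 1) * (-(8 * p 0 * p 1))) * (4 * p 0 ^ 2 + 12 * p 1 ^ 2) +
          ((8 * p 0 * p 1) * (4 * p 0 ^ 2 + 12 * p 1 ^ 2) +
            (4 * p 0 ^ 2 + 12 * p 1 ^ 2) * (-(8 * p 0 * p 1))) * (-(8 * p 0 * p 1)) =
          (4 * p 0 ^ 2 + 12 * p 1 ^ 2) * (16 * (3 * (p 0 ^ 2 + p 1 ^ 2) ^ 2 -
            (p 0 ^ 2 + 3 * p 1 ^ 2))) := by ring
      rw [e] at this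
      have h3 := (mul_pos_iff_of_pos_left hpos).1 this
      linarith
  · intro h v hv
    rw [hess_ff]
    have hpos : 0 < 4 * p 0 ^ 2 + 12 * p 1 ^ 2 := by
      rcases eq_or_lt_of_le (by positivity : 0 ≤ 4 * p 0 ^ 2 + 12 * p 1 ^ 2) with h1 | h1
      · exfalso
        have h0 : p 0 = 0 := by nlinarith [sq_nonneg (p 0), sq_nonneg (p 1)]
        have h1 : p 1 = 0 := by nlinarith [sq_nonneg (p 0), sq_nonneg (p 1)]
        rw [h0, h1] at h; norm_num at h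
      · exact h1
    have e : (4 * p 0 ^ 2 + 12 * p 1 ^ 2) *
        (((12 * p 0 ^ 2 + 4 * p 1 ^ 2 - 4) * v 0 + (8 * p 0 * p 1) * v 1) * v 0 +
        ((8 * p 0 * p 1) * v 0 + (4 * p 0 ^ 2 + 12 * p 1 ^ 2) * v 1) * v 1) =
        16 * (3 * (p 0 ^ 2 + p 1 ^ 2) ^ 2 - (p 0 ^ 2 + 3 * p 1 ^ 2)) * v 0 ^ 2 +
        ((8 * p 0 * p 1) * v 0 + (4 * p 0 ^ 2 + 12 * p 1 ^ 2) * v 1) ^ 2 := by ring
    have hd : 0 < 16 * (3 * (p 0 ^ 2 + p 1 ^ 2) ^ 2 - (p 0 ^ 2 + 3 * p 1 ^ 2)) := by linarith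
    have hprod : 0 < (4 * p 0 ^ 2 + 12 * p 1 ^ 2) *
        (((12 * p 0 ^ 2 + 4 * p 1 ^ 2 - 4) * v 0 + (8 * p 0 * p 1) * v 1) * v 0 +
        ((8 * p 0 * p 1) * v 0 + (4 * p 0 ^ 2 + 12 * p 1 ^ 2) * v 1) * v 1) := by
      rw [e]
      by_cases hv0 : v 0 = 0
      · have hv1 : v 1 ≠ 0 := by
          intro h1
          apply hv
          ext i
          fin_cases i
          · exact hv0
          · exact h1
        rw [hv0]
        have : 0 < (4 * p 0 ^ 2 + 12 * p 1 ^ 2) * (4 * p 0 ^ 2 + 12 * p 1 ^ 2) * (v 1 ^ 2) := by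
          positivity
        nlinarith
      · have : 0 < v 0 ^ 2 := by positivity
        have := mul_pos hd this
        positivity
    exact (mul_pos_iff_of_pos_left hpos).1 hprod

/-- global support inequality at points outside the open unit disc -/
lemma support (p z : E 2) (hp : 1 ≤ p 0 ^ 2 + p 1 ^ 2) :
    ff p + AA p * (z 0 - p 0) + BB p * (z 1 - p 1) ≤ ff z := by
  have e : ff z - (ff p + AA p * (z 0 - p 0) + BB p * (z 1 - p 1)) =
      (2 * (p 0 * (z 0 - p 0) + p 1 * (z 1 - p 1)) + ((z 0 - p 0) ^ 2 + (z 1 - p 1) ^ 2)) ^ 2 +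
      2 * ((p 0 ^ 2 + p 1 ^ 2) - 1) * ((z 0 - p 0) ^ 2 + (z 1 - p 1) ^ 2) +
      2 * (z 1 - p 1) ^ 2 := by
    unfold ff AA BB; ring
  have : 0 ≤ 2 * ((p 0 ^ 2 + p 1 ^ 2) - 1) * ((z 0 - p 0) ^ 2 + (z 1 - p 1) ^ 2) := by
    apply mul_nonneg (by linarith) (by positivity)
  have : 0 ≤ ff z - (ff p + AA p * (z 0 - p 0) + BB p * (z 1 - p 1)) := by
    rw [e]; positivity
  linarith

lemma out_of_disc {p : E 2} (hp : 2 < ff p) : 1 < p 0 ^ 2 + p 1 ^ 2 := by
  by_contra hcon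
  push Not at hcon
  unfold ff at hp
  have h1 : p 1 ^ 2 ≤ 1 := by nlinarith [sq_nonneg (p 0)]
  have h2 : p 1 ≤ 1 := by nlinarith
  have h3 : (p 0 ^ 2 + p 1 ^ 2) ^ 2 ≤ 1 := by nlinarith [sq_nonneg (p 0), sq_nonneg (p 1)]
  nlinarith [sq_nonneg (p 0)]

lemma trunc_convex {q : ℝ} (hq : 2 ≤ q) : ConvexOn ℝ univ (trunc ff q) := by
  refine ⟨convex_univ, fun x _ y _ a b ha hb hab => ?_⟩
  unfold trunc
  simp only [smul_eq_mul]
  set p : E 2 := a • x + b • y with hp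
  have hp0 : p 0 = a * x 0 + b * y 0 := by simp [hp]
  have hp1 : p 1 = a * x 1 + b * y 1 := by simp [hp]
  apply max_le
  · calc q = a * q + b * q := by rw [← add_mul, hab, one_mul]
      _ ≤ _ := by
        apply add_le_add
        · exact mul_le_mul_of_nonneg_left (le_max_left _ _) ha
        · exact mul_le_mul_of_nonneg_left (le_max_left _ _) hb
  · by_cases h : ff p ≤ q
    · calc ff p ≤ q := h
        _ = a * q + b * q := by rw [← add_mul, hab, one_mul]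
        _ ≤ _ := by
          apply add_le_add
          · exact mul_le_mul_of_nonneg_left (le_max_left _ _) ha
          · exact mul_le_mul_of_nonneg_left (le_max_left _ _) hb
    · push Not at h
      have hd := (out_of_disc (lt_of_le_of_lt hq h)).le
      have h1 := support p x hd
      have h2 := support p y hd
      have h3 : a * ff x + b * ff y ≥ ff p := by
        have e1 := mul_le_mul_of_nonneg_left h1 ha
        have e2 := mul_le_mul_of_nonneg_left h2 hb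
        have hb' : b = 1 - a := by linarith
        have e3 : a * (ff p + AA p * (x 0 - p 0) + BB p * (x 1 - p 1)) +
            b * (ff p + AA p * (y 0 - p 0) + BB p * (y 1 - p 1)) = ff p := by
          have z0 : a * (x 0 - p 0) + b * (y 0 - p 0) = 0 := by rw [hp0, hb']; ring
          have z1 : a * (x 1 - p 1) + b * (y 1 - p 1) = 0 := by rw [hp1, hb']; ring
          have e4 : a * (ff p + AA p * (x 0 - p 0) + BB p * (x 1 - p 1)) +
            b * (ff p + AA p * (y 0 - p 0) + BB p * (y 1 - p 1)) = (a + b) * ff p +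
            AA p * (a * (x 0 - p 0) + b * (y 0 - p 0)) +
            BB p * (a * (x 1 - p 1) + b * (y 1 - p 1)) := by ring
          rw [e4, z0, z1, hab]
          ring
        linarith
      calc ff p ≤ a * ff x + b * ff y := h3
        _ ≤ _ := by
          apply add_le_add
          · exact mul_le_mul_of_nonneg_left (le_max_right _ _) ha
          · exact mul_le_mul_of_nonneg_left (le_max_right _ _) hb

/-- below level `2` the truncation is not convex -/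
lemma not_trunc_convex {q : ℝ} (hq : q < 2) : ¬ ConvexOn ℝ univ (trunc ff q) := by
  intro hc
  -- choose a height `h < 1` with `h^4 + h > q`
  obtain ⟨h, hh0, hh1, hhq⟩ : ∃ h : ℝ, 0 < h ∧ h < 1 ∧ q < h ^ 4 + h := by
    have hcont : ContinuousAt (fun h : ℝ => h ^ 4 + h) 1 := by fun_prop
    have h1 : ∀ᶠ h in 𝓝 (1:ℝ), q < h ^ 4 + h := by
      apply hcont.eventually (lt_mem_nhds _)
      norm_num; exact hq
    have h2 : ∀ᶠ h in 𝓝[<] (1:ℝ), q < h ^ 4 + h := h1.filter_mono nhdsWithin_le_nhds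
    have h3 : ∀ᶠ h in 𝓝[<] (1:ℝ), h ∈ Ioo (0:ℝ) 1 := Ioo_mem_nhdsLT one_pos
    obtain ⟨h, hA, hB⟩ := (h2.and h3).exists
    exact ⟨h, hB.1, hB.2, hA⟩
  -- choose a small horizontal displacement
  obtain ⟨s, hs0, hs1, hsq⟩ : ∃ s : ℝ, 0 < s ∧ s ^ 2 + 2 * h ^ 2 < 2 ∧
      q < (s ^ 2 + h ^ 2) ^ 2 - 2 * s ^ 2 + h := by
    have c1 : ContinuousAt (fun s : ℝ => s ^ 2 + 2 * h ^ 2) 0 := by fun_prop
    have c2 : ContinuousAt (fun s : ℝ => (s ^ 2 + h ^ 2) ^ 2 - 2 * s ^ 2 + h) 0 := by fun_prop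
    have e1 : ∀ᶠ s in 𝓝 (0:ℝ), s ^ 2 + 2 * h ^ 2 < 2 := by
      apply c1.eventually (gt_mem_nhds _)
      nlinarith
    have e2 : ∀ᶠ s in 𝓝 (0:ℝ), q < (s ^ 2 + h ^ 2) ^ 2 - 2 * s ^ 2 + h := by
      apply c2.eventually (lt_mem_nhds _)
      have : ((0:ℝ) ^ 2 + h ^ 2) ^ 2 - 2 * 0 ^ 2 + h = h ^ 4 + h := by ring
      show q < ((0:ℝ) ^ 2 + h ^ 2) ^ 2 - 2 * 0 ^ 2 + h
      rw [this]; exact hhq
    have e3 : ∀ᶠ s in 𝓝[>] (0:ℝ), s ∈ Ioi (0:ℝ) := self_mem_nhdsWithin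
    obtain ⟨s, hA, hB⟩ := (((e1.and e2).filter_mono nhdsWithin_le_nhds).and e3).exists
    exact ⟨s, hB, hA.1, hA.2⟩
  have hmid := hc.2 (mem_univ (pt s h)) (mem_univ (pt (-s) h)) (by norm_num : (0:ℝ) ≤ 1/2)
    (by norm_num : (0:ℝ) ≤ 1/2) (by norm_num)
  have ep : (1/2 : ℝ) • pt s h + (1/2 : ℝ) • pt (-s) h = pt 0 h := by
    ext i
    fin_cases i
    · show (1/2 : ℝ) * s + (1/2) * (-s) = 0
      ring
    · show (1/2 : ℝ) * h + (1/2) * h = h
      ring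
  rw [ep] at hmid
  unfold trunc ff at hmid
  simp only [pt0, pt1, smul_eq_mul] at hmid
  have m1 : max q (((0:ℝ) ^ 2 + h ^ 2) ^ 2 - 2 * 0 ^ 2 + h) = h ^ 4 + h := by
    rw [max_eq_right]
    · ring
    · have : ((0:ℝ) ^ 2 + h ^ 2) ^ 2 - 2 * 0 ^ 2 + h = h ^ 4 + h := by ring
      rw [this]; exact hhq.le
  have m2 : max q ((s ^ 2 + h ^ 2) ^ 2 - 2 * s ^ 2 + h) = (s ^ 2 + h ^ 2) ^ 2 - 2 * s ^ 2 + h :=
    max_eq_right hsq.le
  have m3 : max q (((-s) ^ 2 + h ^ 2) ^ 2 - 2 * (-s) ^ 2 + h) =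
      (s ^ 2 + h ^ 2) ^ 2 - 2 * s ^ 2 + h := by
    rw [neg_sq]; exact m2
  rw [m1, m2, m3] at hmid
  have : 0 < s ^ 2 := by positivity
  nlinarith [mul_pos this (by linarith : 0 < 2 - (s ^ 2 + 2 * h ^ 2))]

lemma ff_pt01 : ff (pt 0 1) = 2 := by
  unfold ff; simp; norm_num

lemma two_mem : (2:ℝ) ∈ goodLevels ff := by
  refine ⟨?_, fun r hr => trunc_convex hr⟩
  refine iInf_le_of_le (pt 0 1) ?_
  rw [ff_pt01]

lemma scl_ff : scl ff = 2 := by
  apply le_antisymm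
  · apply csInf_le
    · refine ⟨2, fun q hq => ?_⟩
      by_contra hcon
      push Not at hcon
      exact not_trunc_convex hcon (hq.2 q le_rfl)
    · exact two_mem
  · apply le_csInf ⟨2, two_mem⟩
    intro q hq
    by_contra hcon
    push Not at hcon
    exact not_trunc_convex hcon (hq.2 q le_rfl)

lemma crit_cases {p : E 2} (hp : ∇ ff p = 0) :
    (p 0 = 0 ∧ 4 * p 1 ^ 3 = -1) ∨ (p 0 ^ 2 = 15 / 16 ∧ p 1 = -1 / 4) := by
  rw [grad_zero_iff] at hp
  obtain ⟨hA, hB⟩ := hp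
  unfold AA at hA
  unfold BB at hB
  have h1 : p 0 * (p 0 ^ 2 + p 1 ^ 2 - 1) = 0 := by linarith
  rcases mul_eq_zero.1 h1 with h | h
  · left
    refine ⟨h, ?_⟩
    rw [h] at hB
    linarith
  · right
    have h2 : p 0 ^ 2 + p 1 ^ 2 = 1 := by linarith
    rw [h2] at hB
    have h3 : p 1 = -1/4 := by linarith
    refine ⟨?_, h3⟩
    rw [h3] at h2
    linarith

lemma hess_det_ne {p : E 2} (hp : ∇ ff p = 0) :
    p 0 ^ 2 + 3 * p 1 ^ 2 ≠ 3 * (p 0 ^ 2 + p 1 ^ 2) ^ 2 := by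
  rcases crit_cases hp with ⟨h0, h1⟩ | ⟨h0, h1⟩
  · rw [h0]
    intro h
    have hne : p 1 ≠ 0 := by
      rintro h2; rw [h2] at h1; norm_num at h1
    have h3 : 3 * p 1 ^ 2 * (p 1 ^ 2 - 1) = 0 := by nlinarith
    have h4 : p 1 ^ 2 - 1 = 0 := by
      rcases mul_eq_zero.1 h3 with h5 | h5
      · exfalso
        have : p 1 ^ 2 = 0 := by linarith
        exact hne (pow_eq_zero_iff two_ne_zero |>.1 this)
      · exact h5
    have h5 : p 1 ^ 3 = p 1 := by
      have : p 1 ^ 3 = p 1 ^ 2 * p 1 := by ring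
      rw [this]; have : p 1 ^ 2 = 1 := by linarith
      rw [this, one_mul]
    rw [h5] at h1
    have : p 1 = -1/4 := by linarith
    rw [this] at h4
    norm_num at h4
  · rw [h0, h1]; norm_num

lemma normsq2 (a : E 2) : ‖a‖ ^ 2 = a 0 ^ 2 + a 1 ^ 2 := by
  rw [EuclideanSpace.norm_sq_eq, Fin.sum_univ_two]
  simp

lemma bounded_of {S : Set (E 2)} (h : ∀ p ∈ S, p 0 ^ 2 + p 1 ^ 2 ≤ 4) : Bornology.IsBounded S := by
  rw [isBounded_iff_forall_norm_le]
  refine ⟨2, fun x hx => ?_⟩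
  have : ‖x‖ ^ 2 ≤ 2 ^ 2 := by rw [normsq2]; linarith [h x hx]
  exact le_of_sq_le_sq this (by norm_num)

lemma standing : StandingH ff := by
  refine ⟨by unfold ff; fun_prop, ?_, ⟨2, two_mem⟩, ?_, ?_, ?_, ?_, ?_, ?_⟩
  · -- not convex
    intro hc
    have h := hc.2 (mem_univ (pt 1 0)) (mem_univ (pt (-1) 0)) (by norm_num : (0:ℝ) ≤ 1/2)
      (by norm_num : (0:ℝ) ≤ 1/2) (by norm_num)
    have ep : (1/2 : ℝ) • pt 1 0 + (1/2 : ℝ) • pt (-1) 0 = pt 0 0 := by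
      ext i
      fin_cases i
      · show (1/2 : ℝ) * 1 + (1/2) * (-1) = 0
        ring
      · show (1/2 : ℝ) * 0 + (1/2) * 0 = 0
        ring
    rw [ep] at h
    unfold ff at h
    norm_num at h
  · -- Morse
    intro p hp v hv
    have hdet := hess_det_ne hp
    have h0 := hv (pt 1 0)
    have h1 := hv (pt 0 1)
    rw [hess_ff] at h0 h1
    simp only [pt0, pt1] at h0 h1
    have e0 : (12 * p 0 ^ 2 + 4 * p 1 ^ 2 - 4) * v 0 + (8 * p 0 * p 1) * v 1 = 0 := by linarith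
    have e1 : (8 * p 0 * p 1) * v 0 + (4 * p 0 ^ 2 + 12 * p 1 ^ 2) * v 1 = 0 := by linarith
    have hD : (16 * (3 * (p 0 ^ 2 + p 1 ^ 2) ^ 2 - (p 0 ^ 2 + 3 * p 1 ^ 2))) ≠ 0 := by
      intro h; apply hdet; linarith
    have k0 : (16 * (3 * (p 0 ^ 2 + p 1 ^ 2) ^ 2 - (p 0 ^ 2 + 3 * p 1 ^ 2))) * v 0 = 0 := by
      linear_combination (4 * p 0 ^ 2 + 12 * p 1 ^ 2) * e0 - (8 * p 0 * p 1) * e1
    have k1 : (16 * (3 * (p 0 ^ 2 + p 1 ^ 2) ^ 2 - (p 0 ^ 2 + 3 * p 1 ^ 2))) * v 1 = 0 := by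
      linear_combination (12 * p 0 ^ 2 + 4 * p 1 ^ 2 - 4) * e1 - (8 * p 0 * p 1) * e0
    ext i
    fin_cases i
    · exact (mul_eq_zero.1 k0).resolve_left hD
    · exact (mul_eq_zero.1 k1).resolve_left hD
  · -- critical set bounded
    apply bounded_of
    intro p hp
    rcases crit_cases hp with ⟨h0, h1⟩ | ⟨h0, h1⟩
    · rw [h0]
      have h2 : -1 ≤ p 1 := by
        by_contra hcon
        push Not at hcon
        nlinarith [sq_nonneg (p 1), mul_self_nonneg (p 1 + 1)]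
      have h3 : p 1 ≤ 0 := by
        by_contra hcon
        push Not at hcon
        have : 0 < p 1 ^ 3 := by positivity
        linarith
      nlinarith
    · rw [h0, h1]; norm_num
  · -- complement of Hess^+ bounded
    apply bounded_of
    intro p hp
    have h : ¬ (p 0 ^ 2 + 3 * p 1 ^ 2 < 3 * (p 0 ^ 2 + p 1 ^ 2) ^ 2) := fun h =>
      hp ((mem_hessPos p).2 h)
    push Not at h
    by_contra hcon
    push Not at hcon
    nlinarith [sq_nonneg (p 0), sq_nonneg (p 1)]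
  · rw [scl_ff]; exact ⟨_, ff_pt01⟩
  · intro p hp hcrit
    rw [scl_ff] at hp
    unfold ff at hp
    rcases crit_cases hcrit with ⟨h0, h1⟩ | ⟨h0, h1⟩
    · rw [h0] at hp
      have h3 : p 1 ≤ 0 := by
        by_contra hcon
        push Not at hcon
        have : 0 < p 1 ^ 3 := by positivity
        linarith
      have h4 : ((0:ℝ) ^ 2 + p 1 ^ 2) ^ 2 - 2 * 0 ^ 2 + p 1 = p 1 * (p 1 ^ 3 + 1) := by ring
      rw [h4] at hp
      have h5 : p 1 ^ 3 + 1 = 3 / 4 := by linarith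
      rw [h5] at hp
      linarith
    · rw [h0, h1] at hp; norm_num at hp
  · intro p hp
    rw [scl_ff] at hp
    have hp' : 2 < ff p := hp
    have h := out_of_disc hp'
    rw [mem_hessPos]
    nlinarith [sq_nonneg (p 0), sq_nonneg (p 1)]

/-! ### Joining the two minima inside `R(f)` -/

lemma mem_RR {p : E 2} (h1 : p 0 ^ 2 + 3 * p 1 ^ 2 < 3 * (p 0 ^ 2 + p 1 ^ 2) ^ 2)
    (h2 : ff p ≤ 2) : p ∈ RR ff := by
  refine ⟨(mem_hessPos p).2 h1, ?_⟩
  intro h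
  have h' : scl ff < ff p := h
  rw [scl_ff] at h'
  linarith

noncomputable def w : ℝ := Real.sqrt 15 / 4

lemma w_sq : w ^ 2 = 15 / 16 := by
  unfold w
  rw [div_pow, Real.sq_sqrt (by norm_num)]; norm_num

lemma w_pos : 0 < w := by unfold w; positivity

lemma seg_coord {a b p : E 2} (hp : p ∈ segment ℝ a b) :
    ∃ s t : ℝ, 0 ≤ s ∧ 0 ≤ t ∧ s + t = 1 ∧ p 0 = s * a 0 + t * b 0 ∧ p 1 = s * a 1 + t * b 1 := by
  obtain ⟨s, t, hs, ht, hst, rfl⟩ := hp
  exact ⟨s, t, hs, ht, hst, by simp, by simp⟩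

lemma vert_sub {x : ℝ} (hx : x ^ 2 = 15 / 16) {p : E 2}
    (hp : p ∈ segment ℝ (pt x (-1/4)) (pt x (-21/20))) : p ∈ RR ff := by
  obtain ⟨s, t, hs, ht, hst, h0, h1⟩ := seg_coord hp
  simp only [pt0, pt1] at h0 h1
  have e0 : p 0 = x := by rw [h0, ← add_mul, hst, one_mul]
  have l1 : p 1 ≤ -1/4 := by rw [h1]; nlinarith
  have l2 : -21/20 ≤ p 1 := by rw [h1]; nlinarith
  have l3 : 1 / 16 ≤ p 1 ^ 2 := by nlinarith
  apply mem_RR
  · rw [e0, hx]; nlinarith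
  · unfold ff
    rw [e0, hx]
    have l4 : p 1 ^ 2 ≤ 441 / 400 := by nlinarith
    nlinarith [mul_nonneg (by linarith : 0 ≤ -1/4 - p 1) (by linarith : 0 ≤ p 1 + 21/20)]

lemma hor_sub {p : E 2} (hp : p ∈ segment ℝ (pt w (-21/20)) (pt (-w) (-21/20))) : p ∈ RR ff := by
  obtain ⟨s, t, hs, ht, hst, h0, h1⟩ := seg_coord hp
  simp only [pt0, pt1] at h0 h1
  have e1 : p 1 = -21/20 := by rw [h1, ← add_mul, hst, one_mul]
  have hw := w_pos
  have hw2 := w_sq
  have l0 : p 0 ^ 2 ≤ 15 / 16 := by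
    have a1 : p 0 ≤ w := by rw [h0]; nlinarith
    have a2 : -w ≤ p 0 := by rw [h0]; nlinarith
    nlinarith
  apply mem_RR
  · rw [e1]; nlinarith [sq_nonneg (p 0)]
  · unfold ff
    rw [e1]
    nlinarith [sq_nonneg (p 0)]

/-- There is a function satisfying (H) (on the plane) for which the gradient map is not injective
on some connected component of `R(f)`. -/
theorem result : ∃ (n : ℕ) (f : E n → ℝ), 1 ≤ n ∧ StandingH f ∧
    ∃ x₀ ∈ RR f, ∃ x ∈ connectedComponentIn (RR f) x₀, ∃ y ∈ connectedComponentIn (RR f) x₀,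
      x ≠ y ∧ ∇ f x = ∇ f y := by
  have hw2 := w_sq
  have hw := w_pos
  set S : Set (E 2) := segment ℝ (pt w (-1/4)) (pt w (-21/20)) ∪
    segment ℝ (pt w (-21/20)) (pt (-w) (-21/20)) ∪
    segment ℝ (pt (-w) (-1/4)) (pt (-w) (-21/20)) with hS
  have hSR : S ⊆ RR ff := by
    rintro p ((hp | hp) | hp)
    · exact vert_sub hw2 hp
    · exact hor_sub hp
    · exact vert_sub (by rw [neg_sq]; exact hw2) hp
  have hSc : IsPreconnected S := by
    have p1 : IsPreconnected (segment ℝ (pt w (-1/4)) (pt w (-21/20))) :=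
      (convex_segment _ _).isPreconnected
    have p2 : IsPreconnected (segment ℝ (pt w (-21/20)) (pt (-w) (-21/20))) :=
      (convex_segment _ _).isPreconnected
    have p3 : IsPreconnected (segment ℝ (pt (-w) (-1/4)) (pt (-w) (-21/20))) :=
      (convex_segment _ _).isPreconnected
    have p12 := p1.union (pt w (-21/20)) (right_mem_segment _ _ _) (left_mem_segment _ _ _) p2
    exact p12.union (pt (-w) (-21/20)) (Or.inr (right_mem_segment _ _ _))
      (right_mem_segment _ _ _) p3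
  have m1 : pt w (-1/4) ∈ S := Or.inl (Or.inl (left_mem_segment _ _ _))
  have m2 : pt (-w) (-1/4) ∈ S := Or.inr (left_mem_segment _ _ _)
  have hsub := hSc.subset_connectedComponentIn m1 hSR
  have hg : ∀ x : ℝ, x ^ 2 = 15 / 16 → ∇ ff (pt x (-1/4)) = 0 := by
    intro x hx
    rw [grad_zero_iff]
    unfold AA BB
    simp only [pt0, pt1]
    constructor
    · rw [hx]; ring
    · rw [hx]; norm_num
  refine ⟨2, ff, by norm_num, standing, pt w (-1/4), hSR m1, pt w (-1/4), hsub m1,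
    pt (-w) (-1/4), hsub m2, ?_, ?_⟩
  · intro h
    have : w = -w := congrArg (fun z : E 2 => z 0) h
    linarith
  · rw [hg w hw2, hg (-w) (by rw [neg_sq]; exact hw2)]

end Pool.Agent.Results.MP_5c9c6a_an.TwoMinimaOneComponent
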